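import Mathlib
import Pool.Agent.Lib.helper4.MProd

set_option autoImplicit false

open Cardinal Set Pool.Agent.Lib.helper4.MProd

namespace Pool.Agent.Results.MP_6fd33d_al.NotSmallest

/-- For every infinite `n` there are `m ≥ n`, a family of four-element Boolean algebras and an
`(m,n)`-product with no `m`-homomorphism to the minimal `(m,n)`-product commuting with the
embeddings. -/
theorem result (n : Cardinal.{0}) (hn : ℵ₀ ≤ n) : ∃ m : Cardinal.{0}, n ≤ m ∧
    ∃ (T : Type) (A : T → Type) (_ : ∀ t, BooleanAlgebra (A t)),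
    (∀ t, Nontrivial (A t)) ∧ ∃ (B : Type) (_ : BooleanAlgebra B) (i : ∀ t, BoundedLatticeHom (A t) B),
      IsProd m (fun T' : Set T => #T' ≤ n) i ∧
      (∃ (M : Type) (_ : BooleanAlgebra M) (j : ∀ t, BoundedLatticeHom (A t) M),
        IsProd m (fun T' : Set T => #T' ≤ n) j ∧ Dense' (fun T' : Set T => #T' ≤ n) j) ∧
      ∀ (M : Type) [BooleanAlgebra M] (j : ∀ t, BoundedLatticeHom (A t) M),
        IsProd m (fun T' : Set T => #T' ≤ n) j → Dense' (fun T' : Set T => #T' ≤ n) j →
        ¬ ∃ h : BoundedLatticeHom B M, IsMHom m h ∧ ∀ t a, j t a = h (i t a) := by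
  let T := Set n.out
  have hT : n < #T := by
    rw [mk_set, mk_out]; exact cantor n
  have hT2 : #T ≤ #(Set T) := by rw [mk_set (α := T)]; exact (cantor _).le
  have hD : #{x : Set T // #x ≤ n} ≤ #(Set T) := mk_subtype_le _
  refine ⟨#(Set T), hT.le.trans hT2, T, fun _ => Set Prop, inferInstance, fun _ => inferInstance, _,
    inferInstance, cyl fun T' : Set T => #T' ≤ n,
    cyl_prod _ _ hT2 hD (fun _ _ h h' => (mk_le_mk_of_subset h').trans h)
      (fun t => by simpa using one_le_aleph0.trans hn),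
    ⟨_, _, _, ro_min (P := fun T' : Set T => #T' ≤ n) (by simp)
      (fun x y hx hy => (mk_union_le x y).trans (add_le_of_le hn hx hy)) _
      (hn.trans (hT.le.trans hT2)) hT2 hD (fun _ _ h h' => (mk_le_mk_of_subset h').trans h)
      (fun t => by simpa using one_le_aleph0.trans hn)⟩,
    fun M _ j hj hd => no_hom _ _ hD (by simp) (fun x t h => ?_) (by simpa using hT) j hj.2.2.1 hd⟩
  exact mk_insert_le.trans (add_le_of_le hn h (one_le_aleph0.trans hn))

end Pool.Agent.Results.MP_6fd33d_al.NotSmallest
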